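import Pool.Agent.helper83.GR.Spec

/-! BR0: block orthogonality. -/

set_option autoImplicit false

namespace Pool.Agent.GR

open Pool.Agent.helper58.DC Pool.Agent.DI

theorem BR0 (hKYG : KYG_stmt) (hIDM : IDM_stmt) (hEIN : EIN_stmt) (hSFC : SFC_stmt)
    (hZER : ZER_stmt) : BR0_stmt := by
  intro p M hS G _ _ H S hBC y hy v hv y' hy' v' hv' hpy hpy' hrv hrv' hc hc' hne
  obtain ⟨hCF, -, hid, hsum⟩ := hIDM G H S hBC.sub
  refine hZER p M hS _ ((hSFC G H S hBC.sub).2.1 _ _) fun r => ?_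
  rw [← hsum (y * v) (mul_mem hy hv) (y' * v') (mul_mem hy' hv')]
  refine hKYG p M hS G H (eS H S) hCF.2 (hEIN p M hS G H S hBC) hid y hy v hv y' hy' v' hv'
    hpy hpy' hrv hrv' hc hc' (fun x => hCF.1 _ (mul_mem hy' hv') x) ?_ r
  intro z hz w hw h1 _
  exact absurd h1 (hne z hz)

end Pool.Agent.GR
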