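import Pool.Agent.helper83.GR.Spec

/-! CYC: the group of automorphisms with `PFix p j n` acts on the `n`-th roots of unity as a cyclic
group. -/

set_option autoImplicit false

namespace Pool.Agent.GR

open Pool.Agent.helper58.DC Pool.Agent.DI

theorem CYC_mod {n d : ℕ} [NeZero n] (h : d ∣ n) (x : (ZMod n)ˣ) :
    ZMod.unitsMap h x = 1 ↔ (x : ZMod n).val ≡ 1 [MOD d] := by
  rw [← ZMod.natCast_eq_natCast_iff, Nat.cast_one, ← Units.val_inj, ZMod.unitsMap_val,
    ZMod.cast_eq_val, Units.val_one]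

/-- the units of `ZMod (2 ^ (c + 2))` which are `1` modulo `4` form a cyclic group -/
theorem CYC_K2 (c : ℕ) (h : 4 ∣ 2 ^ (c + 2)) : IsCyclic (ZMod.unitsMap h).ker := by
  classical
  have hu : IsUnit (5 : ZMod (2 ^ (c + 2))) := by
    have h5 : ((5 : ℕ) : ZMod (2 ^ (c + 2))) = 5 := by norm_num
    rw [← h5, ZMod.isUnit_iff_coprime]
    apply Nat.Coprime.pow_right
    decide
  have ho : orderOf hu.unit = 2 ^ c := by
    rw [← orderOf_injective _ Units.coeHom_injective hu.unit, Units.coeHom_apply,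
      IsUnit.unit_spec]
    exact ZMod.orderOf_five c
  have hmem : hu.unit ∈ (ZMod.unitsMap h).ker := by
    rw [MonoidHom.mem_ker, ← Units.val_inj, ZMod.unitsMap_val, IsUnit.unit_spec, Units.val_one]
    have h5 : ((5 : ℕ) : ZMod (2 ^ (c + 2))) = 5 := by norm_num
    rw [← h5, ZMod.cast_natCast h]
    decide
  have hcard : Nat.card (ZMod.unitsMap h).ker = 2 ^ c := by
    have h1 := Subgroup.card_eq_card_quotient_mul_card_subgroup (ZMod.unitsMap h).ker
    have h2 : Nat.card ((ZMod (2 ^ (c + 2)))ˣ ⧸ (ZMod.unitsMap h).ker) = 2 := by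
      rw [Nat.card_congr
        (QuotientGroup.quotientKerEquivOfSurjective _ (ZMod.unitsMap_surjective h)).toEquiv]
      rw [Nat.card_eq_fintype_card, ZMod.card_units_eq_totient]
      decide
    rw [h2, Nat.card_eq_fintype_card, ZMod.card_units_eq_totient,
      Nat.totient_prime_pow_succ Nat.prime_two] at h1
    have h3 : 2 ^ (c + 1) * (2 - 1) = 2 * 2 ^ c := by
      rw [pow_succ]; ring
    rw [h3] at h1
    exact (Nat.eq_of_mul_eq_mul_left (by norm_num) h1).symm
  refine isCyclic_of_orderOf_eq_card (⟨hu.unit, hmem⟩ : (ZMod.unitsMap h).ker) ?_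
  rw [hcard, Subgroup.orderOf_mk, ho]

theorem CYC : CYC_stmt := by
  classical
  intro p j n hp hn hpj
  have hn0 : NeZero n := ⟨hn.ne'⟩
  have hpf : Fact p.Prime := ⟨hp⟩
  obtain ⟨b, m, hpm, hbm⟩ := Nat.exists_eq_pow_mul_and_not_dvd hn.ne' p hp.ne_one
  have hm0 : m ≠ 0 := by
    rintro rfl
    exact hpm (dvd_zero p)
  set n' : ℕ := p ^ min b j * m with hn'
  have hn'0 : n' ≠ 0 := mul_ne_zero (pow_ne_zero _ hp.ne_zero) hm0
  have hd' : n' ∣ n := by
    rw [hbm, hn']
    exact Nat.mul_dvd_mul_right (pow_dvd_pow p (min_le_left b j)) m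
  have hdb : p ^ b ∣ n := by
    rw [hbm]
    exact dvd_mul_right _ _
  have hdm : m ∣ n' := dvd_mul_left _ _
  have hcop : Nat.Coprime (p ^ b) m := Nat.Coprime.pow_left b ((hp.coprime_iff_not_dvd).2 hpm)
  have hcrt : ∀ a : ℕ, a ≡ 1 [MOD p ^ b] → a ≡ 1 [MOD m] → a ≡ 1 [MOD n] := by
    intro a h1 h2
    have h3 := (Nat.modEq_and_modEq_iff_modEq_mul hcop).1 ⟨h1, h2⟩
    rwa [← hbm] at h3
  have hcard : Nat.card { x // x ∈ rootsOfUnity n ℂ } = n :=
    (Complex.isPrimitiveRoot_exp n hn.ne').card_rootsOfUnity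
  let χ := modularCyclotomicCharacter ℂ hcard
  have hχ : ∀ (σ : ℂ ≃+* ℂ) (ζ : ℂ), ζ ^ n = 1 → σ ζ = ζ ^ ((χ σ : (ZMod n)ˣ) : ZMod n).val := by
    intro σ ζ hζ
    have h0 : ζ ≠ 0 := by
      rintro rfl
      rw [zero_pow hn.ne'] at hζ
      exact zero_ne_one hζ
    have ht : Units.mk0 ζ h0 ∈ rootsOfUnity n ℂ := by
      rw [mem_rootsOfUnity]
      apply Units.ext
      push_cast
      exact hζ
    have := modularCyclotomicCharacter.spec ℂ hcard σ ht
    push_cast at this
    exact this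
  have hagree : ∀ σ τ : ℂ ≃+* ℂ, χ σ = χ τ → ∀ ζ : ℂ, ζ ^ n = 1 → σ ζ = τ ζ := by
    intro σ τ h ζ hζ
    rw [hχ σ ζ hζ, hχ τ ζ hζ, h]
  -- the group
  let Γ : Subgroup (ℂ ≃+* ℂ) :=
    { carrier := {σ | PFix p j n σ}
      mul_mem' := by
        intro σ τ hσ hτ ζ h1 h2
        change σ (τ ζ) = ζ
        rw [hτ ζ h1 h2, hσ ζ h1 h2]
      one_mem' := fun ζ _ _ => rfl
      inv_mem' := by
        intro σ hσ ζ h1 h2
        change σ.symm ζ = ζ
        rw [RingEquiv.symm_apply_eq]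
        exact (hσ ζ h1 h2).symm }
  have hΓ : ∀ σ ∈ Γ, (χ σ : ZMod n).val ≡ 1 [MOD n'] := by
    intro σ hσ
    have hprim := Complex.isPrimitiveRoot_exp n' hn'0
    set ζ := Complex.exp (2 * Real.pi * Complex.I / n') with hζ
    have h1 : ζ ^ n = 1 := by
      obtain ⟨k, hk⟩ := hd'
      rw [hk, pow_mul, hprim.pow_eq_one, one_pow]
    have h2 : ¬ p ^ (j + 1) ∣ orderOf ζ := by
      rw [← hprim.eq_orderOf]
      intro h
      have h3 : p ^ (j + 1) ∣ p ^ min b j := by
        refine Nat.Coprime.dvd_of_dvd_mul_right ?_ h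
        exact Nat.Coprime.pow_left _ ((hp.coprime_iff_not_dvd).2 hpm)
      have h4 := (Nat.pow_dvd_pow_iff_le_right hp.one_lt).1 h3
      have := min_le_right b j
      omega
    have h3 : σ ζ = ζ := hσ ζ h1 h2
    rw [hχ σ ζ h1] at h3
    have h4 : ζ ^ ((χ σ : (ZMod n)ˣ) : ZMod n).val = ζ ^ 1 := by rw [h3, pow_one]
    have hfin : IsOfFinOrder ζ := isOfFinOrder_iff_pow_eq_one.2 ⟨n, hn, h1⟩
    rw [hfin.pow_eq_pow_iff_modEq, ← hprim.eq_orderOf] at h4
    exact h4
  let I : Subgroup (ZMod n)ˣ := Γ.map χ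
  have hI : ∀ x ∈ I, (x : ZMod n).val ≡ 1 [MOD n'] := by
    rintro x ⟨σ, hσ, rfl⟩
    exact hΓ σ hσ
  let f : I →* (ZMod (p ^ b))ˣ := (ZMod.unitsMap hdb).comp I.subtype
  have hf : Function.Injective f := by
    rw [injective_iff_map_eq_one]
    intro x hx
    have h1 : ((x : (ZMod n)ˣ) : ZMod n).val ≡ 1 [MOD p ^ b] := (CYC_mod hdb x).1 hx
    have h2 : ((x : (ZMod n)ˣ) : ZMod n).val ≡ 1 [MOD m] := (hI x x.2).of_dvd hdm
    have h3 : ((x : (ZMod n)ˣ) : ZMod n).val ≡ 1 [MOD n] := hcrt _ h1 h2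
    have h4 := (CYC_mod (dvd_refl n) (x : (ZMod n)ˣ)).2 h3
    rw [ZMod.unitsMap_self] at h4
    exact Subtype.ext h4
  have hIcyc : IsCyclic I := by
    by_cases hp2 : p = 2
    · subst hp2
      have hj : 2 ≤ j := hpj.resolve_left (fun h => h rfl)
      by_cases hb : b ≤ 2
      · have := (ZMod.isCyclic_units_two_pow_iff b).2 hb
        exact isCyclic_of_injective f hf
      · obtain ⟨c, rfl⟩ : ∃ c, b = c + 2 := ⟨b - 2, by omega⟩
        have h4 : 4 ∣ 2 ^ (c + 2) := ⟨2 ^ c, by rw [pow_add]; ring⟩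
        have hc := CYC_K2 c h4
        let g : I →* (ZMod.unitsMap h4).ker := f.codRestrict _ (fun x => by
          rw [MonoidHom.mem_ker]
          have h5 : 4 ∣ n := dvd_trans h4 hdb
          have h6 : ZMod.unitsMap h4 (f x) = ZMod.unitsMap h5 (x : (ZMod n)ˣ) := by
            change (ZMod.unitsMap h4).comp (ZMod.unitsMap hdb) (x : (ZMod n)ˣ) = _
            rw [ZMod.unitsMap_comp]
          rw [h6, CYC_mod]
          refine (hI x x.2).of_dvd ?_
          refine dvd_trans ?_ (dvd_mul_right _ m)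
          have h7 : (4 : ℕ) = 2 ^ 2 := by norm_num
          rw [h7]
          refine pow_dvd_pow 2 (le_min (by omega) hj))
        have hg : Function.Injective g := by
          intro x y hxy
          apply hf
          exact congrArg Subtype.val hxy
        exact isCyclic_of_injective g hg
    · have := ZMod.isCyclic_units_of_prime_pow p hp hp2 b
      exact isCyclic_of_injective f hf
  obtain ⟨g, hg⟩ := hIcyc.exists_generator
  obtain ⟨γ, hγ, hγg⟩ := g.2
  refine ⟨γ, hγ, ?_, ?_⟩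
  · intro σ hσ
    have h1 : (⟨χ σ, ⟨σ, hσ, rfl⟩⟩ : I) ∈ Subgroup.zpowers g := hg _
    rw [← mem_powers_iff_mem_zpowers] at h1
    obtain ⟨k, hk⟩ := h1
    refine ⟨k, hagree σ (γ ^ k) ?_⟩
    have h2 := congrArg Subtype.val hk
    change ((g : (ZMod n)ˣ)) ^ k = χ σ at h2
    rw [map_pow, hγg, h2]
  · intro hj
    refine ⟨b, fun ζ hζ => ?_⟩
    have h1 : χ (γ ^ p ^ b) = χ 1 := by
      rw [map_one, map_pow]
      set x : (ZMod n)ˣ := χ γ with hx
      have hx1 : (x : ZMod n).val ≡ 1 [MOD n'] := hΓ γ hγ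
      have hxm : (x : ZMod n).val ^ p ^ b ≡ 1 [MOD m] := by
        have := (hx1.of_dvd hdm).pow (p ^ b)
        rwa [one_pow] at this
      have hxp : (x : ZMod n).val ^ p ^ b ≡ 1 [MOD p ^ b] := by
        rcases Nat.eq_zero_or_pos b with hb0 | hb0
        · rw [hb0, pow_zero]
          exact Nat.modEq_one
        · have h2 : (x : ZMod n).val ≡ 1 [MOD p] := by
            refine hx1.of_dvd (dvd_trans ?_ (dvd_mul_right _ m))
            exact dvd_pow_self p (by
              have : 1 ≤ min b j := le_min hb0 hj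
              omega)
          have h3 : (p : ℤ) ∣ 1 - ((x : ZMod n).val : ℤ) := by
            have := (Nat.modEq_iff_dvd).1 h2
            exact_mod_cast this
          have h4 := dvd_sub_pow_of_dvd_sub h3 b
          rw [one_pow] at h4
          have h5 : (x : ZMod n).val ^ p ^ b ≡ 1 [MOD p ^ (b + 1)] := by
            rw [Nat.modEq_iff_dvd]
            push_cast
            exact h4
          exact h5.of_dvd (pow_dvd_pow p (Nat.le_succ b))
      have h6 : (x : ZMod n).val ^ p ^ b ≡ 1 [MOD n] := hcrt _ hxp hxm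
      apply Units.ext
      rw [Units.val_pow_eq_pow_val, Units.val_one]
      rw [← ZMod.natCast_eq_natCast_iff] at h6
      push_cast at h6
      rw [ZMod.natCast_val, ZMod.cast_id', id_eq] at h6
      exact h6
    rw [hagree _ _ h1 ζ hζ]
    rfl

end Pool.Agent.GR
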