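import Pool.Agent.helper83.GR.Spec

/-! EIN: block idempotents have values in the local ring. -/

set_option autoImplicit false

namespace Pool.Agent.GR

open Pool.Agent.helper58.DC Pool.Agent.DI

/-- good functions -/
def EIN_Good {G : Type} [Group G] (M : Ideal (integralClosure ℤ ℂ)) (H : Subgroup G)
    (z : G → ℂ) : Prop :=
  CF H z ∧ ∀ x, IntAt M (z x)

theorem EIN_dl {G : Type} [Group G] {p : ℕ} {M : Ideal (integralClosure ℤ ℂ)} (hS : Setup p M)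
    (x : G) : IntAt M (dl x) := by
  unfold dl
  split_ifs
  · exact IntAt.one hS
  · exact IntAt.zero hS

theorem EIN (hCVF : CVF_stmt) (hCCI : CCI_stmt) (hEXP : EXP_stmt) (hIDM : IDM_stmt)
    (hB2 : B2_stmt) (hC3 : C3_stmt) : EIN_stmt := by
  classical
  intro p M hS G _ _ H S hBC
  obtain ⟨-, -, -, -, -, -, -, hCF, hCFs, hCFd, hcvI, -⟩ := hCVF G
  -- closure properties of good functions
  have gadd : ∀ a b : G → ℂ, EIN_Good M H a → EIN_Good M H b → EIN_Good M H (a + b) :=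
    fun a b ha hb => ⟨(hCF H a b ha.1 hb.1).2.1, fun x => (ha.2 x).add hS (hb.2 x)⟩
  have gsub : ∀ a b : G → ℂ, EIN_Good M H a → EIN_Good M H b → EIN_Good M H (a - b) :=
    fun a b ha hb => ⟨(hCF H a b ha.1 hb.1).2.2, fun x => (ha.2 x).sub hS (hb.2 x)⟩
  have gcv : ∀ a b : G → ℂ, EIN_Good M H a → EIN_Good M H b → EIN_Good M H (cv a b) :=
    fun a b ha hb => ⟨(hCF H a b ha.1 hb.1).1, hcvI p M hS a b ha.2 hb.2⟩
  have gsmul : ∀ (k : ℂ) (a : G → ℂ), IntAt M k → EIN_Good M H a → EIN_Good M H (k • a) :=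
    fun k a hk ha => ⟨hCFs H k a ha.1, fun x => hk.mul hS (ha.2 x)⟩
  have gdl : EIN_Good M H (dl : G → ℂ) := ⟨hCFd H, EIN_dl hS⟩
  -- properties of cc
  have cadd : ∀ ψ ∈ IrrOn H, ∀ z w : G → ℂ, cc ψ (z + w) = cc ψ z + cc ψ w :=
    fun ψ hψ z w => ((hCCI G H ψ hψ).1 0 z w).1
  have csub : ∀ ψ ∈ IrrOn H, ∀ z w : G → ℂ, cc ψ (z - w) = cc ψ z - cc ψ w :=
    fun ψ hψ z w => ((hCCI G H ψ hψ).1 0 z w).2.1
  have csmul : ∀ ψ ∈ IrrOn H, ∀ (k : ℂ) (z : G → ℂ), cc ψ (k • z) = k * cc ψ z :=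
    fun ψ hψ k z => ((hCCI G H ψ hψ).1 k z 0).2.2.1
  have cdl : ∀ ψ ∈ IrrOn H, cc ψ dl = 1 := fun ψ hψ => ((hCCI G H ψ hψ).1 0 0 0).2.2.2
  have cmul : ∀ ψ ∈ IrrOn H, ∀ z w : G → ℂ, EIN_Good M H z → EIN_Good M H w →
      cc ψ (cv z w) = cc ψ z * cc ψ w :=
    fun ψ hψ z w hz hw => (hCCI G H ψ hψ).2.1 z w hz.1 hw.1
  have cint : ∀ ψ ∈ IrrOn H, ∀ z : G → ℂ, EIN_Good M H z → IntAt M (cc ψ z) :=
    fun ψ hψ z hz => ((hCCI G H ψ hψ).2.2 p M hS z hz.1.1).1 hz.2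
  -- step 1
  have step1 : ∀ ψ ∈ S, ∀ ψ' ∈ IrrOn H, ψ' ∉ S → ∃ u : G → ℂ, EIN_Good M H u ∧ cc ψ u = 1 ∧
      cc ψ' u = 0 := by
    intro ψ hψ ψ' hψ' hn
    have hψI := hBC.sub hψ
    have h1 : ∃ z : G → ℂ, CF H z ∧ (∀ x, IsIntegral ℤ (z x)) ∧
        ¬ Mcong M (cc ψ z) (cc ψ' z) := by
      by_contra hcon
      apply hn
      refine hBC.closed ψ hψ ψ' hψ' fun z hz hz' => ?_
      by_contra h
      exact hcon ⟨z, hz, hz', h⟩
    obtain ⟨z, hz, hzi, hne⟩ := h1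
    have hzg : EIN_Good M H z := ⟨hz, fun x => IntAt.of_isIntegral hS (hzi x)⟩
    have hi1 := (hC3 G).1 H ψ hψI z hz.1 hzi
    have hi2 := (hC3 G).1 H ψ' hψ' z hz.1 hzi
    have hdI : IntAt M (cc ψ z - cc ψ' z) := (cint ψ hψI z hzg).sub hS (cint ψ' hψ' z hzg)
    have hdn : ¬ InM M (cc ψ z - cc ψ' z) := fun h => hne (InM.mcong hS hi1 hi2 h)
    have hd0 : cc ψ z - cc ψ' z ≠ 0 := fun h => hdn (h ▸ InM.zero hS)
    refine ⟨(cc ψ z - cc ψ' z)⁻¹ • (z - cc ψ' z • dl), ?_, ?_, ?_⟩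
    · exact gsmul _ _ (IntAt.inv hS hdI hdn)
        (gsub _ _ hzg (gsmul _ _ (cint ψ' hψ' z hzg) gdl))
    · rw [csmul ψ hψI, csub ψ hψI, csmul ψ hψI, cdl ψ hψI, mul_one, inv_mul_cancel₀ hd0]
    · rw [csmul ψ' hψ', csub ψ' hψ', csmul ψ' hψ', cdl ψ' hψ', mul_one, sub_self, mul_zero]
  have hfin : (IrrOn H).Finite := (hB2 G H).1
  -- step 2
  have step2 : ∀ ψ ∈ S, ∀ T : Finset (G → ℂ), (∀ ψ' ∈ T, ψ' ∈ IrrOn H ∧ ψ' ∉ S) →
      ∃ u : G → ℂ, EIN_Good M H u ∧ cc ψ u = 1 ∧ ∀ ψ' ∈ T, cc ψ' u = 0 := by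
    intro ψ hψ T
    have hψI := hBC.sub hψ
    induction T using Finset.induction_on with
    | empty => exact fun _ => ⟨dl, gdl, cdl ψ hψI, by simp⟩
    | insert a T ha ih =>
      intro hT
      obtain ⟨u, hu, hu1, hu2⟩ := ih fun ψ' h => hT ψ' (Finset.mem_insert_of_mem h)
      obtain ⟨haI, haS⟩ := hT a (Finset.mem_insert_self a T)
      obtain ⟨v, hv, hv1, hv2⟩ := step1 ψ hψ a haI haS
      refine ⟨cv u v, gcv u v hu hv, ?_, ?_⟩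
      · rw [cmul ψ hψI u v hu hv, hu1, hv1, one_mul]
      · intro ψ' hψ'
        have hψ'I := (hT ψ' hψ').1
        rw [cmul ψ' hψ'I u v hu hv]
        rcases Finset.mem_insert.1 hψ' with rfl | h
        · rw [hv2, mul_zero]
        · rw [hu2 ψ' h, zero_mul]
  have step2' : ∀ ψ ∈ S, ∃ u : G → ℂ, EIN_Good M H u ∧ cc ψ u = 1 ∧
      ∀ ψ' ∈ IrrOn H, ψ' ∉ S → cc ψ' u = 0 := by
    intro ψ hψ
    obtain ⟨u, hu, hu1, hu2⟩ := step2 ψ hψ (hfin.toFinset.filter (fun ψ' => ψ' ∉ S))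
      (fun ψ' h => by
        rw [Finset.mem_filter, Set.Finite.mem_toFinset] at h
        exact h)
    exact ⟨u, hu, hu1, fun ψ' h h' => hu2 ψ' (by
      rw [Finset.mem_filter, Set.Finite.mem_toFinset]
      exact ⟨h, h'⟩)⟩
  -- step 3
  have step3 : ∀ T : Finset (G → ℂ), (∀ ψ ∈ T, ψ ∈ S) → ∃ w : G → ℂ, EIN_Good M H w ∧
      (∀ ψ ∈ T, cc ψ w = 1) ∧ ∀ ψ' ∈ IrrOn H, ψ' ∉ S → cc ψ' w = 0 := by
    intro T
    induction T using Finset.induction_on with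
    | empty =>
      intro _
      refine ⟨dl - dl, gsub _ _ gdl gdl, by simp, fun ψ' h _ => ?_⟩
      rw [csub ψ' h, sub_self]
    | insert a T ha ih =>
      intro hT
      obtain ⟨w, hw, hw1, hw2⟩ := ih fun ψ h => hT ψ (Finset.mem_insert_of_mem h)
      obtain ⟨u, hu, hu1, hu2⟩ := step2' a (hT a (Finset.mem_insert_self a T))
      refine ⟨w + u - cv w u, gsub _ _ (gadd _ _ hw hu) (gcv _ _ hw hu), ?_, ?_⟩
      · intro ψ hψ
        have hψI := hBC.sub (hT ψ hψ)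
        rw [csub ψ hψI, cadd ψ hψI, cmul ψ hψI w u hw hu]
        rcases Finset.mem_insert.1 hψ with rfl | h
        · rw [hu1]; ring
        · rw [hw1 ψ h]; ring
      · intro ψ' hψ' hn
        rw [csub ψ' hψ', cadd ψ' hψ', cmul ψ' hψ' w u hw hu, hw2 ψ' hψ' hn, hu2 ψ' hψ' hn]
        ring
  have hSfin : S.Finite := hfin.subset hBC.sub
  obtain ⟨w, hw, hw1, hw2⟩ := step3 hSfin.toFinset (fun ψ h => hSfin.mem_toFinset.1 h)
  obtain ⟨hE1, hE2, -, -⟩ := hIDM G H S hBC.sub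
  have heq : eS H S - w = 0 := by
    refine hEXP G H _ (hCF H _ _ hE1 hw.1).2.2 fun ψ hψ => ?_
    rw [csub ψ hψ, hE2 ψ hψ]
    by_cases h : ψ ∈ S
    · rw [if_pos h, hw1 ψ (hSfin.mem_toFinset.2 h), sub_self]
    · rw [if_neg h, hw2 ψ hψ h, sub_self]
  rw [sub_eq_zero.1 heq]
  exact hw.2

end Pool.Agent.GR
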