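import Pool.Agent.helper88.GR.Spec
import Pool.Agent.helper54.CR.Landau

set_option autoImplicit false

open Complex Metric Set Filter Topology MeasureTheory
open MPS (om)
open PPS (pre TT fd)
open XPS (Df er dens tau)
open Pool.Agent.helper16.Multibrot

noncomputable section

namespace GR

theorem KAP_Z0 (n : ℕ) (c : ℂ) : Z n c 0 = 0 := rfl

theorem KAP_Zs (n : ℕ) (c : ℂ) (j : ℕ) : Z n c (j + 1) = Z n c j ^ n + c := by
  simp only [Z]
  rw [Function.iterate_succ_apply']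

theorem KAP_diff (n j : ℕ) : Differentiable ℂ (fun x : ℂ => Z n x j) := by
  induction j with
  | zero => simp only [KAP_Z0]; exact differentiable_const _
  | succ j ih =>
    simp only [KAP_Zs]
    exact (ih.pow n).add differentiable_id

theorem KAP_hyp (n : ℕ) (hn : 2 ≤ n) : (0 : ℂ) ∈ hyperbolic n := by
  refine ⟨0, 1, one_pos, ?_, ?_⟩
  · simp only [Function.iterate_one, add_zero]
    exact zero_pow (by omega)
  · simp only [Function.iterate_one, add_zero]
    have h : deriv (fun w : ℂ => w ^ n) 0 = 0 := by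
      rw [deriv_pow_field, zero_pow (by omega), mul_zero]
    rw [h, norm_zero]
    exact one_pos

theorem KAP (h1 : MIS_stmt) (h2 : DER_stmt) : KAP_stmt := by
  intro n c r p q hr hd hR
  have hn := hR.hn
  have hn0 : (n : ℂ) ≠ 0 := by exact_mod_cast (by omega : n ≠ 0)
  have hr2 : r ≤ 2 := by
    by_contra hcon
    push Not at hcon
    have h0 : (0 : ℂ) ∈ ball c r := by
      rw [mem_ball, dist_comm, dist_zero_right]
      linarith [hR.hc]
    exact (Set.disjoint_left.1 hd) h0 (KAP_hyp n hn)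
  have hc1 : 1 ≤ 4000 / r := by
    rw [le_div_iff₀ hr]
    linarith
  refine ⟨hc1, ?_⟩
  have hmis := h1 n c r hn hd
  have hp : 0 < p := lt_of_lt_of_le hR.q1 hR.qp.le
  have hq : 0 < q := hR.q1
  have hcb : c ∈ ball c r := mem_ball_self hr
  have hZne : ∀ x ∈ ball c r, ∀ j, 0 < j → Z n x j ≠ 0 := by
    intro x hx j hj h
    exact hmis x hx 0 j hj (by rw [h, KAP_Z0])
  have hA : ∀ j, A n c j ≠ 0 := by
    intro j
    rw [A, Finset.prod_ne_zero_iff]
    intro i hi
    have := hZne c hcb i (Finset.mem_Ico.1 hi).1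
    exact mul_ne_zero hn0 (pow_ne_zero _ this)
  set Φ : ℂ → ℂ := fun x => Z n x p ^ n / Z n x q ^ n with hΦ
  have hΦd : DifferentiableOn ℂ Φ (ball c r) := by
    intro x hx
    have hx0 : Z n x q ^ n ≠ 0 := pow_ne_zero _ (hZne x hx q hq)
    exact ((((KAP_diff n p) x).pow n).div (((KAP_diff n q) x).pow n) hx0).differentiableWithinAt
  have hΦ0 : ∀ z ∈ ball c r, Φ z ≠ 0 := fun z hz =>
    div_ne_zero (pow_ne_zero _ (hZne z hz p hp)) (pow_ne_zero _ (hZne z hz q hq))
  have hΦ1 : ∀ z ∈ ball c r, Φ z ≠ 1 := by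
    intro z hz h
    have hz0 : Z n z q ^ n ≠ 0 := pow_ne_zero _ (hZne z hz q hq)
    have h3 : Z n z p ^ n = Z n z q ^ n := by
      have := (div_eq_one_iff_eq hz0).1 h
      exact this
    exact hmis z hz (q + 1) (p + 1) (by have := hR.qp; omega) (by rw [KAP_Zs, KAP_Zs, h3])
  have hL := Pool.Agent.helper54.CR.landau hr hΦd hΦ0 hΦ1
  have hDp : HasDerivAt (fun x => Z n x p) (A n c p * S n c p) c :=
    h2 n c p hn hp fun i hi _ => hZne c hcb i hi
  have hDq : HasDerivAt (fun x => Z n x q) (A n c q * S n c q) c :=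
    h2 n c q hn hq fun i hi _ => hZne c hcb i hi
  have hp0 := hZne c hcb p hp
  have hq0 := hZne c hcb q hq
  have hD : HasDerivAt Φ (((n : ℂ) * Z n c p ^ (n - 1) * (A n c p * S n c p) * Z n c q ^ n -
      Z n c p ^ n * ((n : ℂ) * Z n c q ^ (n - 1) * (A n c q * S n c q))) / (Z n c q ^ n) ^ 2) c :=
    (hDp.pow n).div (hDq.pow n) (pow_ne_zero _ hq0)
  obtain ⟨k, rfl⟩ : ∃ k, n = k + 1 := ⟨n - 1, by omega⟩
  have hkey : deriv Φ c / Φ c = ((k + 1 : ℕ) : ℂ) * (A (k + 1) c p * S (k + 1) c p / Z (k + 1) c p -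
      A (k + 1) c q * S (k + 1) c q / Z (k + 1) c q) := by
    rw [hD.deriv, hΦ]
    simp only [Nat.add_sub_cancel]
    have e1 := pow_ne_zero k hp0
    have e2 := pow_ne_zero k hq0
    rw [pow_succ, pow_succ]
    field_simp
  have hS : S (k + 1) c p - lam (k + 1) c p q * S (k + 1) c q =
      (Z (k + 1) c p / (((k + 1 : ℕ) : ℂ) * A (k + 1) c p)) * (deriv Φ c / Φ c) := by
    rw [hkey, lam]
    have e1 := hA p
    have e2 := hA q
    field_simp
  have hX1 : 1 < X (k + 1) c p q := by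
    rw [X, lt_div_iff₀ (norm_pos_iff.2 hp0), one_mul]
    exact hR.lt
  have hlogX : 0 < Real.log (X (k + 1) c p q) := Real.log_pos hX1
  have hlog : |Real.log ‖Φ c‖| = ((k + 1 : ℕ) : ℝ) * Real.log (X (k + 1) c p q) := by
    have e3 : ‖Φ c‖ = (X (k + 1) c p q ^ (k + 1))⁻¹ := by
      rw [hΦ, X]
      simp only [norm_div, norm_pow]
      rw [div_pow, inv_div]
    rw [e3, Real.log_inv, Real.log_pow, abs_neg, abs_of_pos]
    exact mul_pos (by positivity) hlogX
  rw [hlog] at hL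
  rw [hS, norm_mul, norm_div, norm_mul, Complex.norm_natCast]
  have hA0 : 0 < ‖A (k + 1) c p‖ := norm_pos_iff.2 (hA p)
  have hk0 : (1 : ℝ) ≤ ((k + 1 : ℕ) : ℝ) := by exact_mod_cast (by omega : 1 ≤ k + 1)
  have hfin : ‖Z (k + 1) c p‖ / (((k + 1 : ℕ) : ℝ) * ‖A (k + 1) c p‖) *
      (4000 / r * (1 + ((k + 1 : ℕ) : ℝ) * Real.log (X (k + 1) c p q))) ≤
      4000 / r * (‖Z (k + 1) c p‖ / ‖A (k + 1) c p‖) * (1 + Real.log (X (k + 1) c p q)) := by
    have e4 : ‖Z (k + 1) c p‖ / (((k + 1 : ℕ) : ℝ) * ‖A (k + 1) c p‖) *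
      (4000 / r * (1 + ((k + 1 : ℕ) : ℝ) * Real.log (X (k + 1) c p q))) =
      4000 / r * (‖Z (k + 1) c p‖ / ‖A (k + 1) c p‖) *
        (1 / ((k + 1 : ℕ) : ℝ) + Real.log (X (k + 1) c p q)) := by
      field_simp
    rw [e4]
    apply mul_le_mul_of_nonneg_left _ (by positivity)
    have : 1 / ((k + 1 : ℕ) : ℝ) ≤ 1 := by
      rw [div_le_one (by positivity)]
      exact hk0
    linarith
  refine le_trans ?_ hfin
  exact mul_le_mul_of_nonneg_left hL (by positivity)

end GR
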